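import Pool.Agent.K3h14.FD.Stm2
import Pool.Agent.K3h33.FD.Spd

/-!
# Project FD (helper14), brick GTEN: the gap is subadditive for tensor products
-/

set_option autoImplicit false
set_option linter.unusedSectionVars false
set_option backward.isDefEq.respectTransparency false
set_option backward.defeqAttrib.useBackward true

open CategoryTheory Limits MonoidalCategory
open Pool.Agent.Y112.SR Pool.Agent.Y112.KD Pool.Agent.Y112.SC Pool.Agent.K3h63.CC

namespace Pool.Agent.K3h17.FD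

open Pool.Agent.K3h14.FD

universe v u w

section

variable {C : Type u} [Category.{v} C] [Preadditive C] [Linear ℚ C] [MonoidalCategory C]
    [MonoidalPreadditive C] [MonoidalLinear ℚ C] [SymmetricCategory C] [RightRigidCategory C]
    {K : Type w} [Field K] [CharZero K] {R : SuperRealisation C K} (G : Grading R)

/-- The operator respects the piece `pr_a ⊠ pr_b`. -/
def Cm (X Y : C) (F : R.H.obj (X ⊗ Y) ⟶ R.H.obj (X ⊗ Y)) : Prop :=
  ∀ p : ℤ × ℤ, bx R (G.pr X p.1) (G.pr Y p.2) ≫ F = F ≫ bx R (G.pr X p.1) (G.pr Y p.2)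

/-- One separating operator for two pieces. -/
lemma one_sep {X Y : C} {M N : ℕ} (hX : Gap G X M) (hY : Gap G Y N) (p q : ℤ × ℤ)
    (h : ((M + N : ℕ) : ℤ) < (p.1 + p.2) - (q.1 + q.2)) :
    ∃ F : R.H.obj (X ⊗ Y) ⟶ R.H.obj (X ⊗ Y), Algebraic R ⊤ F ∧ Cm G X Y F ∧
      bx R (G.pr X p.1) (G.pr Y p.2) ≫ F = bx R (G.pr X p.1) (G.pr Y p.2) ∧
      bx R (G.pr X q.1) (G.pr Y q.2) ≫ F = 0 := by
  push_cast at h
  rcases lt_or_ge (M : ℤ) (p.1 - q.1) with h1 | h1
  · obtain ⟨f, hf, hf1, hf2⟩ := hX p.1 q.1 h1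
    refine ⟨bx R f (𝟙 _), Algebraic.bx hf (Algebraic.one Y), fun r => ?_, ?_, ?_⟩
    · rw [bx_comp, bx_comp, ← hf.pr_comm G, Category.comp_id, Category.id_comp]
    · rw [bx_comp, Category.comp_id, hf1]
    · rw [bx_comp, Category.comp_id, hf2, bx_zero_left]
  · have h2 : (N : ℤ) < p.2 - q.2 := by linarith
    obtain ⟨f, hf, hf1, hf2⟩ := hY p.2 q.2 h2
    refine ⟨bx R (𝟙 _) f, Algebraic.bx (Algebraic.one X) hf, fun r => ?_, ?_, ?_⟩
    · rw [bx_comp, bx_comp, ← hf.pr_comm G, Category.comp_id, Category.id_comp]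
    · rw [bx_comp, Category.comp_id, hf1]
    · rw [bx_comp, Category.comp_id, hf2, bx_zero_right]

/-- The identity on one piece, zero on finitely many others. -/
lemma one_many {X Y : C} {M N : ℕ} (hX : Gap G X M) (hY : Gap G Y N) (p : ℤ × ℤ)
    (Q : Finset (ℤ × ℤ))
    (h : ∀ q ∈ Q, ((M + N : ℕ) : ℤ) < (p.1 + p.2) - (q.1 + q.2)) :
    ∃ F : R.H.obj (X ⊗ Y) ⟶ R.H.obj (X ⊗ Y), Algebraic R ⊤ F ∧ Cm G X Y F ∧
      bx R (G.pr X p.1) (G.pr Y p.2) ≫ F = bx R (G.pr X p.1) (G.pr Y p.2) ∧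
      ∀ q ∈ Q, bx R (G.pr X q.1) (G.pr Y q.2) ≫ F = 0 := by
  classical
  induction Q using Finset.induction_on with
  | empty =>
    exact ⟨𝟙 _, Algebraic.one _, fun r => by rw [Category.comp_id, Category.id_comp],
      Category.comp_id _, fun q hq => absurd hq (Finset.notMem_empty q)⟩
  | insert q Q hq ih =>
    obtain ⟨F, hF, hc, h1, h0⟩ := ih fun j hj => h j (Finset.mem_insert_of_mem hj)
    obtain ⟨f, hf, hfc, hf1, hf0⟩ := one_sep G hX hY p q (h q (Finset.mem_insert_self q Q))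
    refine ⟨F ≫ f, hF.comp hf, fun r => ?_, ?_, fun j hj => ?_⟩
    · rw [← Category.assoc, hc r, Category.assoc, hfc r, Category.assoc]
    · rw [← Category.assoc, h1, hf1]
    · rcases Finset.mem_insert.mp hj with rfl | hj'
      · rw [← Category.assoc, hc j, Category.assoc, hf0, comp_zero]
      · rw [← Category.assoc, h0 j hj', zero_comp]

/-- The identity on finitely many pieces, zero on finitely many others. -/
lemma many_many {X Y : C} {M N : ℕ} (hX : Gap G X M) (hY : Gap G Y N)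
    (P Q : Finset (ℤ × ℤ))
    (h : ∀ p ∈ P, ∀ q ∈ Q, ((M + N : ℕ) : ℤ) < (p.1 + p.2) - (q.1 + q.2)) :
    ∃ F : R.H.obj (X ⊗ Y) ⟶ R.H.obj (X ⊗ Y), Algebraic R ⊤ F ∧ Cm G X Y F ∧
      (∀ p ∈ P, bx R (G.pr X p.1) (G.pr Y p.2) ≫ F = bx R (G.pr X p.1) (G.pr Y p.2)) ∧
      ∀ q ∈ Q, bx R (G.pr X q.1) (G.pr Y q.2) ≫ F = 0 := by
  classical
  induction P using Finset.induction_on with
  | empty =>
    refine ⟨𝟙 _ - 𝟙 _, (Algebraic.one _).sub (Algebraic.one _), fun r => ?_,
      fun q hq => absurd hq (Finset.notMem_empty q), fun q _ => ?_⟩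
    · rw [sub_self, comp_zero, zero_comp]
    · rw [sub_self, comp_zero]
  | insert p P hp ih =>
    obtain ⟨F, hF, hc, h1, h0⟩ := ih fun j hj => h j (Finset.mem_insert_of_mem hj)
    obtain ⟨f, hf, hfc, hf1, hf0⟩ := one_many G hX hY p Q (h p (Finset.mem_insert_self p P))
    have hcomm : Cm G X Y (F ≫ f) := by
      intro r
      rw [← Category.assoc, hc r, Category.assoc, hfc r, Category.assoc]
    refine ⟨F - (F ≫ f - f), hF.sub ((hF.comp hf).sub hf), fun r => ?_, fun j hj => ?_,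
      fun j hj => ?_⟩
    · rw [Preadditive.comp_sub, Preadditive.comp_sub, Preadditive.sub_comp, Preadditive.sub_comp,
        hcomm r, hc r, hfc r]
    · rcases Finset.mem_insert.mp hj with rfl | hj'
      · rw [Preadditive.comp_sub, Preadditive.comp_sub, hf1, ← Category.assoc, hc j,
          Category.assoc, hf1, sub_sub_cancel]
      · rw [Preadditive.comp_sub, Preadditive.comp_sub, ← Category.assoc, h1 j hj', sub_self,
          sub_zero]
    · rw [Preadditive.comp_sub, Preadditive.comp_sub, ← Category.assoc, h0 j hj, zero_comp,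
        hf0 j hj, sub_zero, sub_zero]

end

theorem t_GTEN : S_GTEN.{v, u, w} := by
  classical
  intro C _ _ _ _ _ _ _ _ K _ _ R G X Y M N hX hY k l hkl
  set P := ((G.supp X) ×ˢ (G.supp Y)).filter fun p => p.1 + p.2 = k with hP
  set Q := ((G.supp X) ×ˢ (G.supp Y)).filter fun p => p.1 + p.2 = l with hQ
  obtain ⟨F, hF, -, h1, h0⟩ := many_many G hX hY P Q (by
    intro p hp q hq
    rw [(Finset.mem_filter.mp hp).2, (Finset.mem_filter.mp hq).2]
    exact hkl)
  have hmem : ∀ i j m : ℤ, m = i + j → bx R (G.pr X i) (G.pr Y j) = 0 ∨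
      (i, j) ∈ ((G.supp X) ×ˢ (G.supp Y)).filter fun p => p.1 + p.2 = m := by
    intro i j m hm
    by_cases hi : i ∈ G.supp X
    · by_cases hj : j ∈ G.supp Y
      · exact Or.inr (Finset.mem_filter.mpr ⟨Finset.mem_product.mpr ⟨hi, hj⟩, hm.symm⟩)
      · left
        rw [G.pr_zero hj, bx_zero_right]
    · left
      rw [G.pr_zero hi, bx_zero_left]
  refine ⟨F, hF, ?_, ?_⟩
  · apply G.ext_bx
    intro i j
    by_cases hk : k = i + j
    · rcases hmem i j k hk with h | h
      · rw [h, zero_comp, zero_comp]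
      · subst hk
        rw [← Category.assoc, G.bx_pr]
        exact h1 (i, j) h
    · rw [← Category.assoc, Pool.Agent.K3h33.FD.bx_pr_ne G X Y hk, zero_comp]
  · apply G.ext_bx
    intro i j
    rw [comp_zero]
    by_cases hl : l = i + j
    · rcases hmem i j l hl with h | h
      · rw [h, zero_comp]
      · subst hl
        rw [← Category.assoc, G.bx_pr]
        exact h0 (i, j) h
    · rw [← Category.assoc, Pool.Agent.K3h33.FD.bx_pr_ne G X Y hl, zero_comp]

end Pool.Agent.K3h17.FD
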